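import Pool.Agent.Run7.h583.Fill.D.Dat
import Pool.Agent.Run7.h583.Fill.Fin2

/-!
# The tests for the intervals 11 to 21
-/

set_option autoImplicit false
set_option maxRecDepth 100000

namespace Pool.Agent.Run7.h583.Fill.D

theorem ck11 : z.okJ 11 ⟨805283868415, -1485982617130, 3219701513369, 3188812082778, -1593526757473, 796780525984⟩
    ⟨804808182904, -1488107260150, 3219064241831, 3187313005672, -1592781378500, 796411400610⟩ = true := by decide +kernel

theorem ck12 : z.okJ 12 ⟨804190513351, -1486900351301, 3215657584482, 3190075882123, -1594098295582, 797121785164⟩
    ⟨803629782228, -1488706952815, 3214619424108, 3189084327409, -1593610151608, 796882651115⟩ = true := by decide +kernel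

theorem ck13 : z.okJ 13 ⟨802957971104, -1487397854838, 3211010829763, 3192122854112, -1595014385195, 797652964840⟩
    ⟨802351757363, -1488872040336, 3209771667330, 3191564873652, -1594745693041, 797524547569⟩ = true := by decide +kernel

theorem ck14 : z.okJ 14 ⟨801661625344, -1487526861642, 3206094587110, 3194732294127, -1596172191461, 798318607510⟩
    ⟨801004527555, -1488782812441, 3204733685337, 3194480500045, -1596058781589, 798268637297⟩ = true := by decide +kernel

theorem ck15 : z.okJ 15 ⟨800254080704, -1487317086734, 3200714563476, 3197985630322, -1597599772833, 799140666152⟩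
    ⟨799583596935, -1488344771855, 3199405491304, 3197970346435, -1597605868446, 799150790617⟩ = true := by decide +kernel

theorem ck16 : z.okJ 16 ⟨798801152468, -1486810833896, 3195149704309, 3201695255331, -1599210457050, 800072322728⟩
    ⟨798128742427, -1487659187241, 3193982185712, 3201834580083, -1599294349933, 800121321778⟩ = true := by decide +kernel

theorem ck17 : z.okJ 17 ⟨797323778906, -1486072194609, 3189483378387, 3205746957616, -1600953507775, 801085474689⟩
    ⟨796635243939, -1486807132385, 3188481781851, 3205985041583, -1601086844714, 801158947376⟩ = true := by decide +kernel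

theorem ck18 : z.okJ 18 ⟨795750606668, -1485056497026, 3183455608611, 3210360826321, -1602909866406, 802235092941⟩
    ⟨795079392790, -1485668080708, 3182753193506, 3210640888539, -1603063300850, 802317883473⟩ = true := by decide +kernel

theorem ck19 : z.okJ 19 ⟨794156998077, -1483830914931, 3177353519283, 3215296627500, -1604978718663, 803461795838⟩
    ⟨793497495686, -1484356382041, 3176985164220, 3215579849434, -1605132212315, 803543536361⟩ = true := by decide +kernel

theorem ck20 : z.okJ 20 ⟨792511652434, -1482381367465, 3171067028698, 3220649434260, -1607191607719, 804789064063⟩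
    ⟨791870187145, -1482836374870, 3171096640569, 3220898815211, -1607325883346, 804859686118⟩ = true := by decide +kernel

theorem ck21 : z.okJ 21 ⟨790808358496, -1480698655045, 3164602418928, 3226454346718, -1609550245225, 806224901888⟩
    ⟨790201579107, -1481089715440, 3165097116175, 3226629333635, -1609644184678, 806273392753⟩ = true := by decide +kernel

end Pool.Agent.Run7.h583.Fill.D
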