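import Pool.Agent.Run7.h583.Fill.D.Dat
import Pool.Agent.Run7.h583.Fill.Fin2

/-!
# The tests for the intervals 121 to 131
-/

set_option autoImplicit false
set_option maxRecDepth 100000

namespace Pool.Agent.Run7.h583.Fill.D

theorem ck121 : z.okJ 121 ⟨931142424665, 286696197688, 5681484620694, 10195364268740, -735300809755, 1693011024030⟩
    ⟨949897195185, 342716018094, 5831588103175, 10188434675178, -765598353464, 1681951296890⟩ = true := by decide +kernel

theorem ck122 : z.okJ 122 ⟨939669955071, 320732461466, 5787642710543, 10322292418873, -717848963477, 1690441021118⟩
    ⟨963606039733, 387170279419, 5934271489170, 10317205048572, -752314628353, 1686114232773⟩ = true := by decide +kernel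

theorem ck123 : z.okJ 123 ⟨948001395251, 354725048474, 5910496911150, 10411655531282, -712378586231, 1678760280686⟩
    ⟨978048012257, 431251375827, 6036609406717, 10402650352943, -749711814672, 1686338201876⟩ = true := by decide +kernel

theorem ck124 : z.okJ 124 ⟨964500771477, 397666066987, 6023844259011, 10289359092887, -763504263283, 1656573392009⟩
    ⟨996973003098, 477724523224, 6149886493366, 10277988805665, -800039933099, 1666421490862⟩ = true := by decide +kernel

theorem ck125 : z.okJ 125 ⟨980873672529, 440086741529, 6135257190425, 10174495516691, -811241927986, 1636154738371⟩
    ⟨1014578014642, 520588534521, 6256424728445, 10159308982613, -846197239260, 1647615366430⟩ = true := by decide +kernel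

theorem ck126 : z.okJ 126 ⟨996122420777, 479196623058, 6239539512673, 10067347388559, -853974902754, 1617340352036⟩
    ⟨1031497504811, 561918332994, 6360801952864, 10050389257342, -888415069340, 1629900219343⟩ = true := by decide +kernel

theorem ck127 : z.okJ 127 ⟨1010927227296, 517216005625, 6342360765611, 9968400151821, -893071863710, 1599638224758⟩
    ⟨1047876943683, 602020764695, 6463154387155, 9950005073195, -927206507646, 1613263257127⟩ = true := by decide +kernel

theorem ck128 : z.okJ 128 ⟨1025510797535, 554987871756, 6444597824188, 9882196675020, -928246086180, 1583572437145⟩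
    ⟨1063087473280, 639343612584, 6559188239399, 9861042856285, -961497728492, 1598287549839⟩ = true := by decide +kernel

theorem ck129 : z.okJ 129 ⟨1039137142472, 589913075751, 6540814046288, 9799046401365, -960300349689, 1568394395024⟩
    ⟨1078043740735, 676015953029, 6654031767330, 9777219833541, -993565682673, 1584082468624⟩ = true := by decide +kernel

theorem ck130 : z.okJ 130 ⟨1052567060465, 624268928023, 6636194908218, 9720169068957, -990227856208, 1553922039136⟩
    ⟨1092759928207, 712063667066, 6747568755742, 9698033513919, -1023627811347, 1570617328857⟩ = true := by decide +kernel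

theorem ck131 : z.okJ 131 ⟨1066149176260, 659092058443, 6731275748355, 9650394465635, -1017754869653, 1540856553143⟩
    ⟨1106564417176, 745865857054, 6835536994118, 9626557948569, -1050589261022, 1558416159253⟩ = true := by decide +kernel

end Pool.Agent.Run7.h583.Fill.D
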