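import Pool.Agent.Run7.h583.Fill.D.Dat
import Pool.Agent.Run7.h583.Fill.Fin2

/-!
# The tests for the intervals 132 to 142
-/

set_option autoImplicit false
set_option maxRecDepth 100000

namespace Pool.Agent.Run7.h583.Fill.D

theorem ck132 : z.okJ 132 ⟨1078777444283, 691163729516, 6821010549307, 9581226960162, -1043086804113, 1528214088451⟩
    ⟨1120320855828, 779419289660, 6922785888382, 9557726080606, -1076233858660, 1546762059731⟩ = true := by decide +kernel

theorem ck133 : z.okJ 133 ⟨1091750410227, 724066146180, 6910456561963, 9519747918108, -1066709061152, 1516910746210⟩
    ⟨1133265380321, 810945670419, 7004816925720, 9495094329082, -1099383374669, 1536176276936⟩ = true := by decide +kernel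

theorem ck134 : z.okJ 134 ⟨1103246621032, 752957430924, 6994851946583, 9452666445401, -1088753857237, 1504881837983⟩
    ⟨1146957664525, 844075274359, 7090580368550, 9430769672686, -1122772962542, 1525523163591⟩ = true := by decide +kernel

theorem ck135 : z.okJ 135 ⟨1116769074784, 786881511763, 7083166379197, 9400056034684, -1110063782098, 1495448113409⟩
    ⟨1159097543646, 873470662149, 7166845083447, 9375546229780, -1142773476633, 1516333042395⟩ = true := by decide +kernel

theorem ck136 : z.okJ 136 ⟨1127563142878, 813823569214, 7162868436198, 9339020139971, -1129055868320, 1484610153633⟩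
    ⟨1172111518555, 904710076175, 7247178518921, 9317790550129, -1163295268153, 1507017482274⟩ = true := by decide +kernel

theorem ck137 : z.okJ 137 ⟨1140107321331, 844908147801, 7246050397878, 9286716785091, -1147988751033, 1475562125727⟩
    ⟨1184336280657, 934010708619, 7322454608055, 9265069469644, -1181892207446, 1498553501925⟩ = true := by decide +kernel

theorem ck138 : z.okJ 138 ⟨1151491080600, 873024379134, 7325094567476, 9233035796087, -1165340820288, 1466298861851⟩
    ⟨1196663052939, 963383207944, 7397412191461, 9213191714857, -1199941031105, 1490414529399⟩ = true := by decide +kernel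

theorem ck139 : z.okJ 139 ⟨1163635086373, 902724788492, 7403276608474, 9185471057381, -1182164179681, 1458434031676⟩
    ⟨1208309605564, 991045437981, 7467749111688, 9165379845282, -1216419368084, 1483009129390⟩ = true := by decide +kernel

theorem ck140 : z.okJ 140 ⟨1173728074980, 927588970270, 7478642962516, 9130792568607, -1197249821556, 1448971619060⟩
    ⟨1220785924549, 1020476446040, 7541907325157, 9115290416422, -1233438280905, 1475479603213⟩ = true := by decide +kernel

theorem ck141 : z.okJ 141 ⟨1186871273938, 959167696830, 7555102321129, 9090141826387, -1213337388837, 1442913192947⟩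
    ⟨1231817829081, 1046462925881, 7607288303948, 9072064208313, -1248031384171, 1469018665263⟩ = true := by decide +kernel

theorem ck142 : z.okJ 142 ⟨1196351423203, 982391208709, 7626470967282, 9039255524620, -1226491578092, 1434204356333⟩
    ⟨1243752920032, 1074371989123, 7676754073064, 9026223883203, -1263296717418, 1462401934550⟩ = true := by decide +kernel

end Pool.Agent.Run7.h583.Fill.D
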