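import Pool.Agent.Run7.h583.Fill.D.Dat
import Pool.Agent.Run7.h583.Fill.Fin2

/-!
# The tests for the intervals 143 to 153
-/

set_option autoImplicit false
set_option maxRecDepth 100000

namespace Pool.Agent.Run7.h583.Fill.D

theorem ck143 : z.okJ 143 ⟨1208265943953, 1010873251548, 7699248469290, 8997146866141, -1240726623599, 1427854163983⟩
    ⟨1254973415193, 1100533875678, 7741604793492, 8984071301822, -1277224449330, 1456400810598⟩ = true := by decide +kernel

theorem ck144 : z.okJ 144 ⟨1218717505137, 1035988292325, 7769311970391, 8952537066502, -1253401275456, 1420763592894⟩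
    ⟨1266317996397, 1126852995462, 7806332522283, 8942302906808, -1290891259302, 1450604882055⟩ = true := by decide +kernel

theorem ck145 : z.okJ 145 ⟨1230266804804, 1063264012589, 7837391466275, 8914062744810, -1266308763144, 1415298054731⟩
    ⟨1277016550402, 1151579192468, 7866779217770, 8903682362004, -1303425744279, 1445350956795⟩ = true := by decide +kernel

theorem ck146 : z.okJ 146 ⟨1240225302513, 1086996879755, 7903298676921, 8872756805824, -1277602051749, 1408906648993⟩
    ⟨1287832128531, 1176466511221, 7927167458213, 8865372163445, -1315761119157, 1440264134306⟩ = true := by decide +kernel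

theorem ck147 : z.okJ 147 ⟨1250223211155, 1110748268224, 7969327439364, 8831642503916, -1288572123075, 1402615020484⟩
    ⟨1298714967495, 1201410593705, 7987289140304, 8827546317438, -1327851359463, 1435351490984⟩ = true := by decide +kernel

theorem ck148 : z.okJ 148 ⟨1261477115934, 1136916894819, 8032629675603, 8797006280607, -1300098301032, 1398103549640⟩
    ⟨1308954294253, 1224785884504, 8043240678126, 8792582302496, -1338945699011, 1430914827906⟩ = true := by decide +kernel

theorem ck149 : z.okJ 149 ⟨1270969507311, 1159307106425, 8094656302933, 8758915599674, -1309885521632, 1392408646187⟩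
    ⟨1319297233482, 1248317605443, 8099207360130, 8757896032103, -1349891413845, 1426604959926⟩ = true := by decide +kernel

theorem ck150 : z.okJ 150 ⟨1280500603373, 1181730022806, 8156902160487, 8720883781402, -1319408847284, 1386775367129⟩
    ⟨1329707006136, 1271918093256, 8154976599270, 8723592175665, -1360653010943, 1422434563206⟩ = true := by decide +kernel

theorem ck151 : z.okJ 151 ⟨1291304527083, 1206548922741, 8215931885780, 8689171566683, -1329684120711, 1382911248387⟩
    ⟨1339543104385, 1294124576216, 8207045213355, 8691693547500, -1370595725993, 1418659230205⟩ = true := by decide +kernel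

theorem ck152 : z.okJ 152 ⟨1300373299463, 1227758905362, 8274747886291, 8653672307784, -1338225056836, 1377749334797⟩
    ⟨1349463555162, 1316467480195, 8259176616356, 8660075433501, -1380416143588, 1414978377041⟩ = true := by decide +kernel

theorem ck153 : z.okJ 153 ⟨1310218719697, 1250399853133, 8331581127537, 8621877909167, -1347193229547, 1373651153823⟩
    ⟨1359091424377, 1338069052469, 8309211666906, 8629857462755, -1389751384840, 1411549875513⟩ = true := by decide +kernel

end Pool.Agent.Run7.h583.Fill.D
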