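import Pool.Agent.Run7.h583.Fill.D.Dat
import Pool.Agent.Run7.h583.Fill.Fin2

/-!
# The tests for the intervals 154 to 164
-/

set_option autoImplicit false
set_option maxRecDepth 100000

namespace Pool.Agent.Run7.h583.Fill.D

theorem ck154 : z.okJ 154 ⟨1319363296496, 1271544303210, 8387825655799, 8589214872010, -1355319036599, 1369177309945⟩
    ⟨1368644903450, 1359447760386, 8358470620933, 8600351162780, -1398834199182, 1408263328326⟩ = true := by decide +kernel

theorem ck155 : z.okJ 155 ⟨1328748469969, 1293045125638, 8442385288131, 8558689055313, -1363457134743, 1365261488126⟩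
    ⟨1377975752611, 1380259020510, 8406106809232, 8571957749393, -1407537177637, 1405175076983⟩ = true := by decide +kernel

theorem ck156 : z.okJ 156 ⟨1337779759898, 1313740975902, 8495948137653, 8528438753285, -1371086256563, 1361316292799⟩
    ⟨1387152730486, 1400673014834, 8452583616239, 8544448578540, -1415941266515, 1402240784190⟩ = true := by decide +kernel

theorem ck157 : z.okJ 157 ⟨1346674486704, 1334068547214, 8548441987152, 8498971127589, -1378415596378, 1357515305327⟩
    ⟨1396172749901, 1420682751958, 8497887922277, 8517797281803, -1424056129896, 1399455895843⟩ = true := by decide +kernel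

theorem ck158 : z.okJ 158 ⟨1355607480588, 1354345201321, 8599197329924, 8471187456456, -1385636760110, 1354105347183⟩
    ⟨1404961355407, 1440121710333, 8541636137996, 8492184021221, -1431828997482, 1396839507825⟩ = true := by decide +kernel

theorem ck159 : z.okJ 159 ⟨1364163662272, 1373790120478, 8649110722067, 8443515570187, -1392359459734, 1350617157870⟩
    ⟨1413584856168, 1459152414049, 8584269736860, 8467397685266, -1439331214585, 1394351632395⟩ = true := by decide +kernel

theorem ck160 : z.okJ 160 ⟨1372578476555, 1392864674628, 8697979816600, 8416567966553, -1398816637115, 1347254267828⟩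
    ⟨1422041790162, 1477769096948, 8625768007629, 8443408167300, -1446571696180, 1391990339718⟩ = true := by decide +kernel

theorem ck161 : z.okJ 161 ⟨1380850817953, 1411568426241, 8745812012938, 8390325521228, -1405017681470, 1344011438959⟩
    ⟨1430329314695, 1495968607361, 8666141079940, 8420197661482, -1453557785821, 1389749273563⟩ = true := by decide +kernel

theorem ck162 : z.okJ 162 ⟨1388979729629, 1429900922066, 8792612927815, 8364769923660, -1410971568347, 1340883976822⟩
    ⟨1438444620107, 1513747675234, 8705398149761, 8397748987105, -1460296269032, 1387622458106⟩ = true := by decide +kernel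

theorem ck163 : z.okJ 163 ⟨1397167947610, 1448215382656, 8837418163907, 8341059012788, -1416923483424, 1338177804849⟩
    ⟨1446313245833, 1530937662038, 8743138251255, 8376231673675, -1466736748762, 1385631355619⟩ = true := by decide +kernel

theorem ck164 : z.okJ 164 ⟨1404735702005, 1465294049695, 8882682070714, 8315914714387, -1422127830555, 1334995442972⟩
    ⟨1454070647325, 1547864425121, 8780232754508, 8355279948057, -1472994450883, 1383708169837⟩ = true := by decide +kernel

end Pool.Agent.Run7.h583.Fill.D
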