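import Pool.Agent.Run7.h583.Fill.D.Dat
import Pool.Agent.Run7.h583.Fill.Fin2

/-!
# The tests for the intervals 165 to 175
-/

set_option autoImplicit false
set_option maxRecDepth 100000

namespace Pool.Agent.Run7.h583.Fill.D

theorem ck165 : z.okJ 165 ⟨1412643321398, 1482875670096, 8925293308162, 8293630108709, -1427653214126, 1332527473301⟩
    ⟨1461580653857, 1564195012506, 8815771699288, 8335199765076, -1478971982688, 1381918978180⟩ = true := by decide +kernel

theorem ck166 : z.okJ 166 ⟨1420126789529, 1499565534598, 8967442295601, 8271008679239, -1432674321453, 1329876948253⟩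
    ⟨1468901224235, 1580088572872, 8850270052864, 8315842891677, -1484720215029, 1380214325260⟩ = true := by decide +kernel

theorem ck167 : z.okJ 167 ⟨1427462889930, 1515879397324, 9008539321929, 8249015631305, -1437491951135, 1327328439782⟩
    ⟨1476035077807, 1595542592659, 8883684056037, 8297169811194, -1490248885207, 1378598534106⟩ = true := by decide +kernel

theorem ck168 : z.okJ 168 ⟨1434651191864, 1531816265217, 9048574603582, 8227643734100, -1442113819612, 1324880827128⟩
    ⟨1482979635607, 1610553367342, 8916017524612, 8279167143648, -1495562301116, 1377067623337⟩ = true := by decide +kernel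

theorem ck169 : z.okJ 169 ⟨1441458035116, 1546985131620, 9088962134607, 8205256070427, -1446232003968, 1322138876238⟩
    ⟨1489804306536, 1625285205998, 8947708325749, 8261649147675, -1500714800352, 1375588518237⟩ = true := by decide +kernel

theorem ck170 : z.okJ 170 ⟨1448654577169, 1562716391267, 9125895859562, 8186456705273, -1450838065978, 1320246795162⟩
    ⟨1496371356471, 1639402054239, 8977821514282, 8244915143101, -1505617609966, 1374229116663⟩ = true := by decide +kernel

theorem ck171 : z.okJ 171 ⟨1455397329477, 1577515210522, 9162663080998, 8166927843308, -1454917294910, 1318100364859⟩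
    ⟨1502733349214, 1653061090229, 9006928825570, 8228849856204, -1510307983645, 1372931851897⟩ = true := by decide +kernel

theorem ck172 : z.okJ 172 ⟨1461743293757, 1591525730217, 9200022214080, 8146074388677, -1458468358497, 1315608294204⟩
    ⟨1508968261214, 1666431798792, 9035416447382, 8213239310135, -1514844779258, 1371674685180⟩ = true := by decide +kernel

theorem ck173 : z.okJ 173 ⟨1468506838623, 1606126991664, 9233284499094, 8129437539640, -1462621855486, 1314074600281⟩
    ⟨1514939626857, 1679174621417, 9062294687592, 8198369164369, -1519147376222, 1370533084706⟩ = true := by decide +kernel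

theorem ck174 : z.okJ 174 ⟨1474542560911, 1619355409919, 9268530185353, 8109610269707, -1465829291520, 1311752432917⟩
    ⟨1520769284134, 1691618938804, 9088651027781, 8183976962939, -1523289348164, 1369409371124⟩ = true := by decide +kernel

theorem ck175 : z.okJ 175 ⟨1480752905075, 1632771127575, 9301250216753, 8092183053227, -1469305964388, 1309963362272⟩
    ⟨1526404030656, 1703598772764, 9113844647696, 8170135698829, -1527250348313, 1368366101149⟩ = true := by decide +kernel

end Pool.Agent.Run7.h583.Fill.D
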