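import Pool.Agent.Run7.h583.Fill.D.Dat
import Pool.Agent.Run7.h583.Fill.Fin2

/-!
# The tests for the intervals 176 to 186
-/

set_option autoImplicit false
set_option maxRecDepth 100000

namespace Pool.Agent.Run7.h583.Fill.D

theorem ck176 : z.okJ 176 ⟨1486550708878, 1645377615525, 9334935826603, 8072918681137, -1472212138723, 1307754619471⟩
    ⟨1531903675041, 1715279746393, 9138448913991, 8156715699353, -1531063700748, 1367349552994⟩ = true := by decide +kernel

theorem ck177 : z.okJ 177 ⟨1492792085557, 1658592462612, 9363465091639, 8059027212092, -1475886551658, 1306678765668⟩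
    ⟨1537133098392, 1726315200947, 9161378982317, 8143987800241, -1534661219288, 1366448498940⟩ = true := by decide +kernel

theorem ck178 : z.okJ 178 ⟨1498272212952, 1670394074225, 9394827004718, 8040872785180, -1478500109463, 1304656114846⟩
    ⟨1542210450857, 1737041360847, 9183845001570, 8131716395971, -1538098956622, 1365548030068⟩ = true := by decide +kernel

theorem ck179 : z.okJ 179 ⟨1503937241877, 1682383854646, 9423014856154, 8025804852722, -1481483914253, 1303269689326⟩
    ⟨1547086702072, 1747288400987, 9205108271157, 8119957175529, -1541368421605, 1364725751046⟩ = true := by decide +kernel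

theorem ck180 : z.okJ 180 ⟨1509172608799, 1693540749731, 9452611955967, 8008296149091, -1483840653208, 1301377333692⟩
    ⟨1551820097236, 1757226667944, 9225813089514, 8108593309131, -1544493355109, 1363918108029⟩ = true := by decide +kernel

theorem ck181 : z.okJ 181 ⟨1514593276890, 1704878692944, 9478648333602, 7994329440370, -1486621516660, 1300181775757⟩
    ⟨1556349918867, 1766678691759, 9245288440153, 8097724862065, -1547455741335, 1363189207842⟩ = true := by decide +kernel

theorem ck182 : z.okJ 182 ⟨1519631898266, 1715458586957, 9505710514392, 7978302881064, -1488856056022, 1298572299845⟩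
    ⟨1560718800272, 1775781700706, 9264112392069, 8087273077173, -1550267080329, 1362478059408⟩ = true := by decide +kernel

theorem ck183 : z.okJ 183 ⟨1524675048937, 1725921704699, 9530598931407, 7964152037481, -1491224202045, 1297315839187⟩
    ⟨1564907981548, 1784463209889, 9281934537152, 8077250072083, -1552930559181, 1361823088969⟩ = true := by decide +kernel

theorem ck184 : z.okJ 184 ⟨1529524742589, 1735938987540, 9554946493376, 7949841715387, -1493381299975, 1296019710200⟩
    ⟨1568924521316, 1792755720939, 9298932121221, 8067642336504, -1555445700836, 1361202609146⟩ = true := by decide +kernel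

theorem ck185 : z.okJ 185 ⟨1534248486755, 1745623785798, 9578174409813, 7936101232597, -1495452820153, 1294820604695⟩
    ⟨1572770320890, 1800657098246, 9315065955792, 8058432608239, -1557817959578, 1360621881946⟩ = true := by decide +kernel

theorem ck186 : z.okJ 186 ⟨1538816249066, 1754928937654, 9600634647488, 7922502139412, -1497376953828, 1293641078115⟩
    ⟨1576451659553, 1808183642721, 9330393735596, 8049599956418, -1560051144684, 1360074971234⟩ = true := by decide +kernel

end Pool.Agent.Run7.h583.Fill.D
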