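import Pool.Agent.Run7.h583.Fill.D.Dat
import Pool.Agent.Run7.h583.Fill.Fin2

/-!
# The tests for the intervals 187 to 197
-/

set_option autoImplicit false
set_option maxRecDepth 100000

namespace Pool.Agent.Run7.h583.Fill.D

theorem ck187 : z.okJ 187 ⟨1543234035058, 1763868054133, 9622409104645, 7908962568577, -1499152390853, 1292470305653⟩
    ⟨1579976911094, 1815352455222, 9344955279771, 8041116401001, -1562151125804, 1359559166733⟩ = true := by decide +kernel

theorem ck188 : z.okJ 188 ⟨1547558622987, 1772530908713, 9642618333335, 7896576841832, -1500932088501, 1291490019451⟩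
    ⟨1583339049511, 1822141524529, 9358656606658, 8032987526337, -1564119169621, 1359083718816⟩ = true := by decide +kernel

theorem ck189 : z.okJ 189 ⟨1551699996392, 1780775345389, 9662553876453, 7883731529591, -1502491864149, 1290428994203⟩
    ⟨1586550747622, 1828588243308, 9371654511834, 8025182956180, -1565957472039, 1358631926314⟩ = true := by decide +kernel

theorem ck190 : z.okJ 190 ⟨1555747529506, 1788745241471, 9680815347912, 7872211898195, -1504076316991, 1289576886166⟩
    ⟨1589606845427, 1834669505199, 9383819618346, 8017701793095, -1567670978191, 1358218701724⟩ = true := by decide +kernel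

theorem ck191 : z.okJ 191 ⟨1559613529695, 1796303362448, 9698895019811, 7860133229026, -1505435818956, 1288629459887⟩
    ⟨1592520464470, 1840424668619, 9395323470207, 8010513596930, -1569260352870, 1357825488660⟩ = true := by decide +kernel

theorem ck192 : z.okJ 192 ⟨1563361180267, 1803554130697, 9715809081101, 7848786636966, -1506745283775, 1287790952183⟩
    ⟨1595294919526, 1845850663721, 9406100034749, 8003598956138, -1570732911545, 1357461984023⟩ = true := by decide +kernel

theorem ck193 : z.okJ 193 ⟨1566962652908, 1810455682384, 9732133676742, 7837448246049, -1507913487728, 1286947418821⟩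
    ⟨1597937935158, 1850967203179, 9416224953289, 7996935875161, -1572090147833, 1357120404701⟩ = true := by decide +kernel

theorem ck194 : z.okJ 194 ⟨1570444151148, 1817051511253, 9747218387336, 7826986305626, -1509046019449, 1286226022095⟩
    ⟨1600450824004, 1855771115242, 9425656155278, 7990512981684, -1573336390429, 1356806498646⟩ = true := by decide +kernel

theorem ck195 : z.okJ 195 ⟨1573796788866, 1823327742591, 9760882772447, 7817648262507, -1510162784352, 1285654271871⟩
    ⟨1602832060011, 1860259272077, 9434385002614, 7984330114521, -1574472277458, 1356520579665⟩ = true := by decide +kernel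

theorem ck196 : z.okJ 196 ⟨1576978742005, 1829223457182, 9774725239373, 7807372437097, -1511028719586, 1284933562145⟩
    ⟨1605099189685, 1864477120403, 9442592804597, 7978344254065, -1575498058055, 1356244128369⟩ = true := by decide +kernel

theorem ck197 : z.okJ 197 ⟨1580042983959, 1834826722244, 9787230204826, 7798202633241, -1511883548353, 1284356185311⟩
    ⟨1607255644518, 1868418333603, 9450182505039, 7972534549649, -1576422988685, 1355991117475⟩ = true := by decide +kernel

end Pool.Agent.Run7.h583.Fill.D
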