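import Pool.Agent.Run7.h583.Fill.D.Dat
import Pool.Agent.Run7.h583.Fill.Fin2

/-!
# The tests for the intervals 198 to 208
-/

set_option autoImplicit false
set_option maxRecDepth 100000

namespace Pool.Agent.Run7.h583.Fill.D

theorem ck198 : z.okJ 198 ⟨1582967009763, 1840105007001, 9799238107641, 7789054952282, -1512603208503, 1283765259282⟩
    ⟨1609310488312, 1872106202664, 9457251531365, 7966876497325, -1577246339491, 1355751139262⟩ = true := by decide +kernel

theorem ck199 : z.okJ 199 ⟨1585774972306, 1845098235144, 9808471612648, 7782982516976, -1513511453280, 1283572671381⟩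
    ⟨1611251752197, 1875505190784, 9463626994628, 7961390312996, -1577974309418, 1355543261461⟩ = true := by decide +kernel

theorem ck200 : z.okJ 200 ⟨1588406175685, 1849715971096, 9819367487471, 7774119111554, -1513977076703, 1282973586753⟩
    ⟨1613110010219, 1878701523642, 9469706803843, 7956009330100, -1578597148745, 1355323901319⟩ = true := by decide +kernel

theorem ck201 : z.okJ 201 ⟨1590924027274, 1854065429203, 9828762290699, 7766766029507, -1514470049059, 1282555124302⟩
    ⟨1614889755172, 1881679343141, 9475303419499, 7950698306485, -1579129995373, 1355118955426⟩ = true := by decide +kernel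

theorem ck202 : z.okJ 202 ⟨1593309176860, 1858118114629, 9834546437441, 7763725856086, -1515268290024, 1282680159844⟩
    ⟨1616570441010, 1884396554227, 9480284027361, 7945503197228, -1579572631662, 1354939136838⟩ = true := by decide +kernel

theorem ck203 : z.okJ 203 ⟨1595534498691, 1861835996376, 9842742663153, 7757041428954, -1515541585155, 1282280821325⟩
    ⟨1618191032586, 1886957898245, 9485117018739, 7940343569047, -1579912984402, 1354734546041⟩ = true := by decide +kernel

theorem ck204 : z.okJ 204 ⟨1597628209619, 1865270864034, 9846824842325, 7755397552343, -1516200159851, 1282519147334⟩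
    ⟨1619729610336, 1889292424033, 9489452727734, 7935233204960, -1580162800541, 1354542351842⟩ = true := by decide +kernel

theorem ck205 : z.okJ 205 ⟨1599577836683, 1868407728242, 9852079081292, 7751873142917, -1516519975636, 1282463137830⟩
    ⟨1621214731254, 1891480742221, 9493663312578, 7930121629343, -1580311538345, 1354322781095⟩ = true := by decide +kernel

theorem ck206 : z.okJ 206 ⟨1601389267323, 1871261020866, 9854395113127, 7751829017267, -1517071306101, 1282840272305⟩
    ⟨1622632915110, 1893486493385, 9497635686414, 7925000107354, -1580355006574, 1354082166243⟩ = true := by decide +kernel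

theorem ck207 : z.okJ 207 ⟨1603085124250, 1873874846298, 9858875198337, 7748850333578, -1517169326381, 1282766962534⟩
    ⟨1624026962448, 1895401006189, 9501676099315, 7919776619109, -1580292579622, 1353794440149⟩ = true := by decide +kernel

theorem ck208 : z.okJ 208 ⟨1604616122260, 1876157076646, 9852887141860, 7758318755263, -1518535029772, 1284441114839⟩
    ⟨1625287139079, 1897036927427, 9505647000663, 7914586895362, -1580052868406, 1353422448046⟩ = true := by decide +kernel

end Pool.Agent.Run7.h583.Fill.D
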