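import Pool.Agent.Run7.h583.Fill.D.Dat
import Pool.Agent.Run7.h583.Fill.Fin2

/-!
# The tests for the intervals 209 to 217
-/

set_option autoImplicit false
set_option maxRecDepth 100000

namespace Pool.Agent.Run7.h583.Fill.D

theorem ck209 : z.okJ 209 ⟨1606048645059, 1878255132547, 9855964837278, 7756696265835, -1518519213979, 1284467081535⟩
    ⟨1626562449643, 1898679355391, 9509982634417, 7909264808719, -1579720257330, 1352984613610⟩ = true := by decide +kernel

theorem ck210 : z.okJ 210 ⟨1607378953244, 1880090637566, 9845449442411, 7769979451838, -1520256108573, 1286816283856⟩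
    ⟨1627643441940, 1900014264526, 9515265792239, 7903896807480, -1579038328286, 1352267185603⟩ = true := by decide +kernel

theorem ck211 : z.okJ 211 ⟨1608624033147, 1881781892084, 9842589351268, 7774338171135, -1520825594445, 1287776981882⟩
    ⟨1628708129419, 1901335571000, 9521262682042, 7898406586791, -1578204816448, 1351415772093⟩ = true := by decide +kernel

theorem ck212 : z.okJ 212 ⟨1609962101786, 1883450328935, 9826186816965, 7791081643291, -1523272990721, 1291129920300⟩
    ⟨1629418709456, 1902279241611, 9530866393216, 7892756332029, -1576575235818, 1349785502814⟩ = true := by decide +kernel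

theorem ck213 : z.okJ 213 ⟨1611347733171, 1885156274053, 9814018587081, 7802254092036, -1525117046482, 1293752117318⟩
    ⟨1629900877280, 1903049042288, 9543709260380, 7886966212367, -1574325947533, 1347522812073⟩ = true := by decide +kernel

theorem ck214 : z.okJ 214 ⟨1612894926395, 1887062066438, 9803396648353, 7811246694876, -1526748490246, 1296166582163⟩
    ⟨1630009960483, 1903542449394, 9562708416990, 7880582347894, -1570902788019, 1344067890168⟩ = true := by decide +kernel

theorem ck215 : z.okJ 215 ⟨1615224609558, 1889986708371, 9789550613530, 7822187573086, -1528964749382, 1299472850305⟩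
    ⟨1628795818479, 1903053381170, 9604364175735, 7871552610308, -1563176543931, 1336252104179⟩ = true := by decide +kernel

theorem ck216 : z.okJ 216 ⟨1617979622758, 1893827846993, 9802012278367, 7818896095262, -1526783836578, 1298431771419⟩
    ⟨1625435288516, 1900925288361, 9691270709465, 7853591322663, -1546877452920, 1319993255835⟩ = true := by decide +kernel

theorem ck217 : z.okJ 217 ⟨1619289174622, 1895992802894, 9843997163975, 7798603592658, -1519347080141, 1291716819779⟩
    ⟨1623642794487, 1900062182279, 9766843074049, 7830930876347, -1532883645143, 1306336396938⟩ = true := by decide +kernel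

end Pool.Agent.Run7.h583.Fill.D
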