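import Pool.Agent.Run7.h583.Fill.D.Dat
import Pool.Agent.Run7.h583.Fill.Fin2

/-!
# The tests for the intervals 22 to 32
-/

set_option autoImplicit false
set_option maxRecDepth 100000

namespace Pool.Agent.Run7.h583.Fill.D

theorem ck22 : z.okJ 22 ⟨789101948673, -1478855233758, 3158110279641, 3232504078523, -1611983229931, 807720001821⟩
    ⟨788510983704, -1479210504315, 3159102144829, 3232591057184, -1612029104288, 807741918749⟩ = true := by decide +kernel

theorem ck23 : z.okJ 23 ⟨787302348674, -1476745781486, 3151353630419, 3239148229442, -1614595017784, 809357186691⟩
    ⟨786754249234, -1477061162989, 3152910458390, 3239104630970, -1614570676441, 809340983319⟩ = true := by decide +kernel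

theorem ck24 : z.okJ 24 ⟨785496254606, -1474472740764, 3144588309151, 3246066327179, -1617275553400, 811060195584⟩
    ⟨784982495466, -1474764752377, 3146749749065, 3245876565081, -1617172063676, 811000697970⟩ = true := by decide +kernel

theorem ck25 : z.okJ 25 ⟨783638761467, -1471984224223, 3137724432232, 3253441284176, -1620068826116, 812871165230⟩
    ⟨783172118654, -1472257528002, 3140517961008, 3253078997579, -1619872158883, 812760848922⟩ = true := by decide +kernel

theorem ck26 : z.okJ 26 ⟨781780197591, -1469348347951, 3130872964958, 3261072452500, -1622915864869, 814743805773⟩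
    ⟨781351989070, -1469614283306, 3134348336603, 3260525286014, -1622618424794, 814577970844⟩ = true := by decide +kernel

theorem ck27 : z.okJ 27 ⟨779889090285, -1466524957406, 3123902301573, 3269092240896, -1625864340685, 816711099365⟩
    ⟨779492684872, -1466789667072, 3128148564791, 3268342192084, -1625455230846, 816483088074⟩ = true := by decide +kernel

theorem ck28 : z.okJ 28 ⟨777902305362, -1463425091770, 3116832731318, 3277801587195, -1628946183523, 818836398748⟩
    ⟨777566771824, -1463689808157, 3121778072012, 3276826591853, -1628414679171, 818540988734⟩ = true := by decide +kernel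

theorem ck29 : z.okJ 29 ⟨775970357468, -1460254922349, 3109846935092, 3286543996527, -1632027350486, 820974974858⟩
    ⟨775669476409, -1460526955109, 3115652579440, 3285333376212, -1631364775987, 820605691314⟩ = true := by decide +kernel

theorem ck30 : z.okJ 30 ⟨773952693251, -1456817766518, 3102779933983, 3295965214010, -1635227947712, 823269102809⟩
    ⟨773704561311, -1457100278086, 3109383316891, 3294505763147, -1634427720978, 822822542881⟩ = true := by decide +kernel

theorem ck31 : z.okJ 31 ⟨771944332570, -1453246949032, 3095761002013, 3305643144193, -1638459962467, 825625669813⟩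
    ⟨771740935129, -1453542606089, 3103253709682, 3303921451230, -1637512928431, 825095609293⟩ = true := by decide +kernel

theorem ck32 : z.okJ 32 ⟨769903388776, -1449477219527, 3088720894785, 3315789108569, -1641764426208, 828092275988⟩
    ⟨769745424113, -1449787839809, 3097149215038, 3313791301166, -1640661837227, 827473034890⟩ = true := by decide +kernel

end Pool.Agent.Run7.h583.Fill.D
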