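import Pool.Agent.Run7.h583.Fill.D.Dat
import Pool.Agent.Run7.h583.Fill.Fin2

/-!
# The tests for the intervals 33 to 43
-/

set_option autoImplicit false
set_option maxRecDepth 100000

namespace Pool.Agent.Run7.h583.Fill.D

theorem ck33 : z.okJ 33 ⟨767831062680, -1445505000751, 3081672955831, 3326419525307, -1645136892336, 830672467032⟩
    ⟨767718983974, -1445831904566, 3091084040692, 3324132226885, -1643870128729, 829958305363⟩ = true := by decide +kernel

theorem ck34 : z.okJ 34 ⟨765721760930, -1441325670910, 3074724502524, 3337586911994, -1648547779253, 833372459472⟩
    ⟨765661198633, -1441674023573, 3085043114086, 3335012320333, -1647117915544, 832563595544⟩ = true := by decide +kernel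

theorem ck35 : z.okJ 35 ⟨763629904727, -1437016590231, 3067844721352, 3349022444530, -1651976345897, 836138496850⟩
    ⟨763613909517, -1437383611145, 3079208401558, 3346141447881, -1650370250121, 835225846790⟩ = true := by decide +kernel

theorem ck36 : z.okJ 36 ⟨761511358821, -1432500706359, 3060998769991, 3360979342534, -1655455970122, 839025586914⟩
    ⟨761539704831, -1432886272084, 3073455650125, 3357780342756, -1653665649864, 838003382643⟩ = true := by decide +kernel

theorem ck37 : z.okJ 37 ⟨759360252249, -1427776327231, 3054325049963, 3373517592696, -1658945031476, 842039209674⟩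
    ⟨759436478757, -1428186795092, 3067758241085, 3370012680122, -1656977222472, 840910754802⟩ = true := by decide +kernel

theorem ck38 : z.okJ 38 ⟨757240545964, -1422919168562, 3047598359548, 3386292502820, -1662482996843, 845121456226⟩
    ⟨757355088771, -1423339992735, 3062367372803, 3382430472174, -1660304092692, 843864460616⟩ = true := by decide +kernel

theorem ck39 : z.okJ 39 ⟨755042405501, -1417761800469, 3041086523408, 3399980340550, -1666038127339, 848397918558⟩
    ⟨755202509221, -1418207438890, 3056904981784, 3395795632667, -1663669157893, 847024528736⟩ = true := by decide +kernel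

theorem ck40 : z.okJ 40 ⟨752864451409, -1412477586827, 3034821887056, 3414014901143, -1669546758147, 851749381515⟩
    ⟨753067239193, -1412948499016, 3051683667540, 3409510405306, -1666987913626, 850258241847⟩ = true := by decide +kernel

theorem ck41 : z.okJ 41 ⟨750725827666, -1407055563989, 3028480212342, 3428290593786, -1673110055506, 855174859393⟩
    ⟨750964029976, -1407530027292, 3046842150560, 3423398614291, -1670316863007, 853536237516⟩ = true := by decide +kernel

theorem ck42 : z.okJ 42 ⟨748510419458, -1401318959185, 3022471696674, 3443590596972, -1676643330798, 858812033527⟩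
    ⟨748788003394, -1401816884135, 3041952670263, 3438363951835, -1673648306966, 857044959320⟩ = true := by decide +kernel

theorem ck43 : z.okJ 43 ⟨746330527143, -1395445567942, 3016563330891, 3459208482481, -1680171574540, 862529794420⟩
    ⟨746642934147, -1395953251357, 3037423164908, 3453609764778, -1676949055898, 860615970301⟩ = true := by decide +kernel

end Pool.Agent.Run7.h583.Fill.D
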