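import Pool.Agent.Run7.h583.Fill.D.Dat
import Pool.Agent.Run7.h583.Fill.Fin2

/-!
# The tests for the intervals 44 to 54
-/

set_option autoImplicit false
set_option maxRecDepth 100000

namespace Pool.Agent.Run7.h583.Fill.D

theorem ck44 : z.okJ 44 ⟨744126755864, -1389347166225, 3011017365307, 3475575164666, -1683627457497, 866400575814⟩
    ⟨744473333656, -1389876665280, 3033025933259, 3469639459268, -1680198435075, 864351468459⟩ = true := by decide +kernel

theorem ck45 : z.okJ 45 ⟨741974736037, -1383098102847, 3005359621321, 3492195042177, -1687149222869, 870355316989⟩
    ⟨742350859464, -1383616079693, 3029120964016, 3485831466133, -1683453206959, 868129562116⟩ = true := by decide +kernel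

theorem ck46 : z.okJ 46 ⟨739746787610, -1376506841504, 3000210972150, 3510039611899, -1690564760524, 874553603241⟩
    ⟨740152569611, -1377042894729, 3025203979290, 3503325340976, -1686650463405, 872180342310⟩ = true := by decide +kernel

theorem ck47 : z.okJ 47 ⟨737565368939, -1369769677637, 2995176712204, 3528238986165, -1693963711607, 878842879032⟩
    ⟨737997278556, -1370303353834, 3021738876752, 3521125417398, -1689797472243, 876297425771⟩ = true := by decide +kernel

theorem ck48 : z.okJ 48 ⟨735364238556, -1362790332568, 2990631573641, 3547334648581, -1697228643460, 883308469372⟩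
    ⟨735819680447, -1363339080344, 3018455330211, 3539870081716, -1692840548910, 880607789035⟩ = true := by decide +kernel

theorem ck49 : z.okJ 49 ⟨733215951902, -1355664681903, 2986201162579, 3566789481407, -1700472312745, 887867208657⟩
    ⟨733691963581, -1356204531536, 3015668391711, 3558918572774, -1695823965365, 884982802235⟩ = true := by decide +kernel

theorem ck50 : z.okJ 50 ⟨731065540383, -1348269465402, 2982042798239, 3587106443475, -1703656964887, 892613920063⟩
    ⟨731559507761, -1348795529227, 3013220259228, 3578820157712, -1698740580937, 889536982689⟩ = true := by decide +kernel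

theorem ck51 : z.okJ 51 ⟨728915136589, -1340594529426, 2978180927037, 3608334195852, -1706770150424, 897558053121⟩
    ⟨729424253288, -1341101506888, 3011138533023, 3599623358753, -1701577796498, 894279243371⟩ = true := by decide +kernel

theorem ck52 : z.okJ 52 ⟨726748822257, -1332655362356, 2974951655219, 3630654065730, -1709671216285, 902708650609⟩
    ⟨727268906610, -1333167914803, 3009292483209, 3621580373151, -1704243097806, 899251316368⟩ = true := by decide +kernel

theorem ck53 : z.okJ 53 ⟨724649485089, -1324556144441, 2971850854561, 3653380301333, -1712537973456, 907965034351⟩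
    ⟨725178198092, -1325041196033, 3008054362294, 3643875939460, -1706826209748, 904292080099⟩ = true := by decide +kernel

theorem ck54 : z.okJ 54 ⟨722557447321, -1316156548772, 2969115299682, 3677140431835, -1715293089078, 913440896868⟩
    ⟨723091513893, -1316607806906, 3007257025544, 3667196399684, -1709289876358, 909541740668⟩ = true := by decide +kernel

end Pool.Agent.Run7.h583.Fill.D
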