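import Pool.Agent.Run7.h583.Fill.D.Dat
import Pool.Agent.Run7.h583.Fill.Fin2

/-!
# The tests for the intervals 55 to 65
-/

set_option autoImplicit false
set_option maxRecDepth 100000

namespace Pool.Agent.Run7.h583.Fill.D

theorem ck55 : z.okJ 55 ⟨720452275559, -1307476294818, 2967131550155, 3702168497175, -1717763690066, 919148577031⟩
    ⟨720986574391, -1307925111256, 3006735329087, 3691857509347, -1711518182200, 915052490387⟩ = true := by decide +kernel

theorem ck56 : z.okJ 56 ⟨718451687555, -1298593296321, 2964911715728, 3727442601695, -1720356537131, 924967862109⟩
    ⟨718985857511, -1298957331584, 3007124198163, 3716602193688, -1713753418963, 920587208541⟩ = true := by decide +kernel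

theorem ck57 : z.okJ 57 ⟨716371205705, -1289260320557, 2963833722595, 3754878977118, -1722495474367, 931171674752⟩
    ⟨716897971058, -1289613501915, 3007617875917, 3743658578290, -1715639568259, 926574436479⟩ = true := by decide +kernel

theorem ck58 : z.okJ 58 ⟨714350756409, -1279778839449, 2963320874819, 3783039236655, -1724386055428, 937506155773⟩
    ⟨714866091138, -1280120482550, 3008648414266, 3771448652278, -1717283474926, 932690938535⟩ = true := by decide +kernel

theorem ck59 : z.okJ 59 ⟨712424184785, -1270116429312, 2962949912711, 3811668340561, -1726222911748, 943962329729⟩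
    ⟨712926104723, -1270396077850, 3010478553592, 3799619102908, -1718809463873, 938875332963⟩ = true := by decide +kernel

theorem ck60 : z.okJ 60 ⟨710522833192, -1260103092563, 2963107752553, 3841656260269, -1727840759594, 950692061361⟩
    ⟨711007091272, -1260312237199, 3012925437508, 3829139691095, -1720109655623, 945319513506⟩ = true := by decide +kernel

theorem ck61 : z.okJ 61 ⟨708650552032, -1249723679926, 2963833079243, 3873091093757, -1729213966912, 957710169406⟩
    ⟨709112661932, -1249853203963, 3016031896136, 3860098379414, -1721158594484, 952037378412⟩ = true := by decide +kernel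

theorem ck62 : z.okJ 62 ⟨706811537085, -1238962103992, 2965167373441, 3906068498090, -1730314398078, 965032440383⟩
    ⟨707246761187, -1239002230164, 3019843703239, 3892590716862, -1721928408887, 959043729028⟩ = true := by decide +kernel

theorem ck63 : z.okJ 63 ⟨704967202796, -1227849542782, 2967650473556, 3941063293150, -1730846734429, 972690969083⟩
    ⟨705369181806, -1227857022961, 3024073974189, 3927200125542, -1722206631706, 966434852218⟩ = true := by decide +kernel

theorem ck64 : z.okJ 64 ⟨703201264621, -1216573096385, 2970836505143, 3977038581236, -1731012309053, 980508891622⟩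
    ⟨703566009416, -1216547922050, 3028964261660, 3962801616105, -1722128288659, 973983988647⟩ = true := by decide +kernel

theorem ck65 : z.okJ 65 ⟨701615897272, -1205033153484, 2973645003554, 4013100981281, -1731408302309, 988438919654⟩
    ⟨701941624300, -1204824966338, 3035274289807, 3998264157233, -1722108188135, 981495222815⟩ = true := by decide +kernel

end Pool.Agent.Run7.h583.Fill.D
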