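import Pool.Agent.Run7.h583.Fill.D.Dat
import Pool.Agent.Run7.h583.Fill.Fin2

/-!
# The tests for the intervals 66 to 76
-/

set_option autoImplicit false
set_option maxRecDepth 100000

namespace Pool.Agent.Run7.h583.Fill.D

theorem ck66 : z.okJ 66 ⟨699940012590, -1192918682911, 2978340172763, 4052822391174, -1730794876959, 996955061053⟩
    ⟨700218366803, -1192665308573, 3041801028405, 4037598780043, -1721248347234, 989713491298⟩ = true := by decide +kernel

theorem ck67 : z.okJ 67 ⟨698411473422, -1180570152247, 2983234301991, 4093156135733, -1730088761390, 1005616902572⟩
    ⟨698638947711, -1180186218735, 3049487096692, 4077432854247, -1720209949745, 997992734870⟩ = true := by decide +kernel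

theorem ck68 : z.okJ 68 ⟨696945117070, -1167765738810, 2988975341956, 4135576841415, -1728927205146, 1014657694373⟩
    ⟨697115923133, -1167238315532, 3058129301798, 4119345715009, -1718714188073, 1006630528287⟩ = true := by decide +kernel

theorem ck69 : z.okJ 69 ⟨695481055497, -1154548962004, 2996242028791, 4180880563338, -1726869561608, 1024138052943⟩
    ⟨695589588537, -1153962427417, 3067306664770, 4164261592279, -1716426596615, 1015778570999⟩ = true := by decide +kernel

theorem ck70 : z.okJ 70 ⟨694191381979, -1141076631503, 3003729466906, 4226823410867, -1724713482566, 1033762018696⟩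
    ⟨694233067445, -1140328694144, 3077803578862, 4209695021794, -1713946689695, 1024970298190⟩ = true := by decide +kernel

theorem ck71 : z.okJ 71 ⟨692906352962, -1127176606126, 3012876886227, 4275981640913, -1721530977900, 1043858011316⟩
    ⟨692876397533, -1126362780649, 3088861065434, 4258471701672, -1710556206363, 1034715300971⟩ = true := by decide +kernel

theorem ck72 : z.okJ 72 ⟨691897599675, -1112937711974, 3021556495016, 4324883260362, -1718748910299, 1054022464394⟩
    ⟨691788668094, -1111826129371, 3101914898115, 4306727668869, -1707349847796, 1044307916199⟩ = true := by decide +kernel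

theorem ck73 : z.okJ 73 ⟨690788433456, -1097983525428, 3032908642689, 4379517328857, -1714217416654, 1065023362177⟩
    ⟨690595929526, -1096788467123, 3115310153833, 4360966437739, -1702625642579, 1054919050524⟩ = true := by decide +kernel

theorem ck74 : z.okJ 74 ⟨689805319299, -1082816027566, 3045279424247, 4435856107500, -1709026082216, 1076233537229⟩
    ⟨689526081710, -1081539376750, 3129638765949, 4416923321949, -1697265234023, 1065739804159⟩ = true := by decide +kernel

theorem ck75 : z.okJ 75 ⟨689153133346, -1067271974158, 3057141280877, 4491625030345, -1704368674678, 1087460068288⟩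
    ⟨688776305387, -1065637564020, 3146262783207, 4472034914858, -1692204860764, 1076317253130⟩ = true := by decide +kernel

theorem ck76 : z.okJ 76 ⟨688396675936, -1050945179883, 3072074553346, 4554332093931, -1697538553927, 1099651306886⟩
    ⟨687921019743, -1049209047162, 3163278685221, 4534346178492, -1685233784478, 1088077240194⟩ = true := by decide +kernel

end Pool.Agent.Run7.h583.Fill.D
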