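import Pool.Agent.Run7.h583.Fill.D.Dat
import Pool.Agent.Run7.h583.Fill.Fin2

/-!
# The tests for the intervals 77 to 87
-/

set_option autoImplicit false
set_option maxRecDepth 100000

namespace Pool.Agent.Run7.h583.Fill.D

theorem ck77 : z.okJ 77 ⟨687902212744, -1034291193255, 3087330372226, 4617640208373, -1690643398858, 1111936873268⟩
    ⟨687319678548, -1032299221043, 3182088400819, 4597126603085, -1678091399562, 1099788418197⟩ = true := by decide +kernel

theorem ck78 : z.okJ 78 ⟨687431902140, -1017103467305, 3104847845536, 4685904359890, -1682110340254, 1124852561364⟩
    ⟨686742291334, -1015001287361, 3201637353335, 4665001576742, -1669468031537, 1112253799478⟩ = true := by decide +kernel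

theorem ck79 : z.okJ 79 ⟨687253318533, -999577084890, 3122688076933, 4754594112562, -1673580161388, 1137813441218⟩
    ⟨686447569595, -997193344602, 3223105754955, 4733167895269, -1660737789648, 1124606144004⟩ = true := by decide +kernel

theorem ck80 : z.okJ 80 ⟨687244072129, -981385064081, 3142083828341, 4826984921386, -1664078646534, 1151274039266⟩
    ⟨686316045802, -978697145733, 3246240117168, 4805032204067, -1651061139968, 1137429666745⟩ = true := by decide +kernel

theorem ck81 : z.okJ 81 ⟨687271115329, -962612202435, 3164030293693, 4905228919026, -1652639990747, 1165420458577⟩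
    ⟨686224088621, -959792871279, 3270179855794, 4882888050359, -1639623021789, 1151089301485⟩ = true := by decide +kernel

theorem ck82 : z.okJ 82 ⟨687803190933, -943345136985, 3185433463050, 4981443675344, -1642309064045, 1179319157419⟩
    ⟨686616783519, -939983545044, 3297289422766, 4958450440200, -1629034563865, 1164132112120⟩ = true := by decide +kernel

theorem ck83 : z.okJ 83 ⟨688061158429, -923232952718, 3211946376895, 5070700506487, -1627505187395, 1194738014177⟩
    ⟨686758120886, -919929980198, 3323849848279, 5047446417245, -1614455797818, 1179223690825⟩ = true := by decide +kernel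

theorem ck84 : z.okJ 84 ⟨689046256526, -902948974300, 3236436076890, 5152695035475, -1615471874530, 1209162485369⟩
    ⟨687597020388, -899048861562, 3354227556019, 5128806341431, -1602237415920, 1192744042418⟩ = true := by decide +kernel

theorem ck85 : z.okJ 85 ⟨689923367484, -881647630948, 3265410595770, 5246596678832, -1599631735321, 1224965043378⟩
    ⟨688344965801, -877575190792, 3385107459199, 5222322215696, -1586561456435, 1208015560107⟩ = true := by decide +kernel

theorem ck86 : z.okJ 86 ⟨691236795414, -859916239391, 3294851442928, 5339799857482, -1584241453616, 1240519450253⟩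
    ⟨689518526160, -855419327292, 3418514237151, 5315034234169, -1571229913590, 1222826045721⟩ = true := by decide +kernel

theorem ck87 : z.okJ 87 ⟨692618613126, -837508102029, 3327453025500, 5440745071704, -1566347062823, 1256805204947⟩
    ⟨690774226759, -832826497445, 3452815184885, 5415612000267, -1553599695215, 1238589075828⟩ = true := by decide +kernel

end Pool.Agent.Run7.h583.Fill.D
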