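import Pool.Agent.Run7.h583.Fill.D.Dat
import Pool.Agent.Run7.h583.Fill.Fin2

/-!
# The tests for the intervals 88 to 98
-/

set_option autoImplicit false
set_option maxRecDepth 100000

namespace Pool.Agent.Run7.h583.Fill.D

theorem ck88 : z.okJ 88 ⟨694479376163, -814663541235, 3360495524199, 5540209872821, -1549186029337, 1272691889871⟩
    ⟨692498688981, -809518086917, 3489771114852, 5514618532409, -1536597913043, 1253722544076⟩ = true := by decide +kernel

theorem ck89 : z.okJ 89 ⟨696655351610, -790954515660, 3395800806780, 5644050741285, -1530957558492, 1288905417990⟩
    ⟨694540182468, -785309273802, 3529043947103, 5618020987919, -1518587077877, 1269166234476⟩ = true := by decide +kernel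

theorem ck90 : z.okJ 90 ⟨699170432770, -766344398579, 3433486574161, 5752303067855, -1511678880348, 1305408255824⟩
    ⟨696924563719, -760160273255, 3570743575691, 5725860731459, -1499588819502, 1284885434319⟩ = true := by decide +kernel

theorem ck91 : z.okJ 91 ⟨701779497238, -740988014434, 3474741895807, 5869487388508, -1489613081660, 1322611144648⟩
    ⟨699425981542, -734559598038, 3613365540625, 5842728795143, -1478013609340, 1301584633822⟩ = true := by decide +kernel

theorem ck92 : z.okJ 92 ⟨704969012333, -715151459233, 3516493454316, 5983278418873, -1468958780222, 1339065163263⟩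
    ⟨702503058630, -708131670407, 3658996502623, 5956176078202, -1457756143110, 1317274363740⟩ = true := by decide +kernel

theorem ck93 : z.okJ 93 ⟨708250331715, -688570338696, 3561934232628, 6106390428592, -1445443095856, 1356178351763⟩
    ⟨705700532290, -681284788760, 3705454568525, 6079026471686, -1434842210283, 1333939557796⟩ = true := by decide +kernel

theorem ck94 : z.okJ 94 ⟨712148365169, -661524072279, 3607782139241, 6224741808162, -1423787722535, 1372344154509⟩
    ⟨709514058790, -653588324442, 3755005354043, 6197123567150, -1413698084316, 1349378744274⟩ = true := by decide +kernel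

theorem ck95 : z.okJ 95 ⟨716459854802, -633513215531, 3656283941288, 6346734439119, -1401435936531, 1388529097840⟩
    ⟨713758477313, -624873975650, 3807205626152, 6318920993537, -1391927979294, 1364845063269⟩ = true := by decide +kernel

theorem ck96 : z.okJ 96 ⟨721203576252, -604510579428, 3707536103565, 6472254885940, -1378451652795, 1404682064583⟩
    ⟨718456749562, -595108923125, 3862143261733, 6444315158325, -1369598524290, 1380292374315⟩ = true := by decide +kernel

theorem ck97 : z.okJ 97 ⟨726031649786, -574741722953, 3762729095201, 6608115560235, -1352434839297, 1421444706746⟩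
    ⟨723277739679, -564971477099, 3917763886392, 6580071811031, -1344418104878, 1396730884457⟩ = true := by decide +kernel

theorem ck98 : z.okJ 98 ⟨731546065673, -544521132943, 3818254855489, 6736426058306, -1329139885134, 1436890837561⟩
    ⟨728801798893, -533902720380, 3976729867296, 6708397355656, -1321890470711, 1411546836665⟩ = true := by decide +kernel

end Pool.Agent.Run7.h583.Fill.D
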