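import Pool.Agent.Run7.h583.Fill.D.Dat
import Pool.Agent.Run7.h583.Fill.Fin2

/-!
# The tests for the intervals 99 to 109
-/

set_option autoImplicit false
set_option maxRecDepth 100000

namespace Pool.Agent.Run7.h583.Fill.D

theorem ck99 : z.okJ 99 ⟨737111915897, -513573974455, 3877720094045, 6875582386119, -1302713302351, 1452947697287⟩
    ⟨734419126704, -502540662549, 4036165488595, 6847553123932, -1296393285284, 1427389331835⟩ = true := by decide +kernel

theorem ck100 : z.okJ 100 ⟨743369151616, -482232881682, 3937336158707, 7005657666412, -1279432998374, 1467538760863⟩
    ⟨740755555658, -470251835831, 4098955488734, 6977801297980, -1273986091456, 1441441079436⟩ = true := by decide +kernel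

theorem ck101 : z.okJ 101 ⟨750064958846, -449925758885, 3999760126913, 7138364491408, -1255851248684, 1481907095719⟩
    ⟨747575038041, -436910928734, 4164506096978, 7110784711530, -1251354157843, 1455305713295⟩ = true := by decide +kernel

theorem ck102 : z.okJ 102 ⟨756752504602, -416945836541, 4066107152915, 7283079668955, -1228890689519, 1496944897150⟩
    ⟨754429312232, -403395582167, 4230219372119, 7255676252457, -1225472807719, 1470296532418⟩ = true := by decide +kernel

theorem ck103 : z.okJ 103 ⟨764128003328, -383658028910, 4132397296588, 7416648485075, -1205598747676, 1510338442432⟩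
    ⟨762024364805, -368943319111, 4299346857214, 7389702077496, -1203236123601, 1483297664266⟩ = true := by decide +kernel

theorem ck104 : z.okJ 104 ⟨771914871539, -349449553262, 4201480024107, 7552670232966, -1182068562525, 1523468475252⟩
    ⟨770092916486, -333460475028, 4371205191969, 7526301799415, -1180845448569, 1496082902185⟩ = true := by decide +kernel

theorem ck105 : z.okJ 105 ⟨780106914446, -314322388111, 4273401783866, 7691213706996, -1158290078759, 1536326851127⟩
    ⟨778637063215, -296936663831, 4445834411628, 7665553358267, -1158296707417, 1508649485138⟩ = true := by decide +kernel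

theorem ck106 : z.okJ 106 ⟨788186757678, -278606973442, 4349156286614, 7844112886143, -1130604434340, 1550033341421⟩
    ⟨787102811411, -260426858133, 4520170679087, 7818896664433, -1131921477271, 1522559118655⟩ = true := by decide +kernel

theorem ck107 : z.okJ 107 ⟨796398185179, -243057393107, 4425568363307, 7995722040141, -1103348705504, 1563084647571⟩
    ⟨795749067822, -224069330141, 4594801480701, 7970980062052, -1105979636272, 1535905104400⟩ = true := by decide +kernel

theorem ck108 : z.okJ 108 ⟨805771278865, -207087592215, 4500587197365, 8119800391920, -1084424927835, 1573026982520⟩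
    ⟨805745768293, -185637109233, 4676202681800, 8096529165485, -1088484007846, 1545327949089⟩ = true := by decide +kernel

theorem ck109 : z.okJ 109 ⟨814638592064, -169892346740, 4582425224608, 8278218278013, -1056251217592, 1585682976982⟩
    ⟨815208724296, -147405484224, 4755935242823, 8255581049953, -1061798080582, 1558412625367⟩ = true := by decide +kernel

end Pool.Agent.Run7.h583.Fill.D
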