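import Pool.Agent.Run7.h583.Fill.D.C0
import Pool.Agent.Run7.h583.Fill.D.C1
import Pool.Agent.Run7.h583.Fill.D.C2
import Pool.Agent.Run7.h583.Fill.D.C3
import Pool.Agent.Run7.h583.Fill.D.C4
import Pool.Agent.Run7.h583.Fill.D.C5
import Pool.Agent.Run7.h583.Fill.D.C6
import Pool.Agent.Run7.h583.Fill.D.C7
import Pool.Agent.Run7.h583.Fill.D.C8
import Pool.Agent.Run7.h583.Fill.D.C9
import Pool.Agent.Run7.h583.Fill.D.C10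
import Pool.Agent.Run7.h583.Fill.D.C11
import Pool.Agent.Run7.h583.Fill.D.C12
import Pool.Agent.Run7.h583.Fill.D.C13
import Pool.Agent.Run7.h583.Fill.D.C14
import Pool.Agent.Run7.h583.Fill.D.C15
import Pool.Agent.Run7.h583.Fill.D.C16
import Pool.Agent.Run7.h583.Fill.D.C17
import Pool.Agent.Run7.h583.Fill.D.C18
import Pool.Agent.Run7.h583.Fill.D.C19
import Pool.Agent.Run7.h583.Fill.Val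

/-!
# All tests for the data
-/

set_option autoImplicit false
set_option maxRecDepth 100000

namespace Pool.Agent.Run7.h583.Fill.D

theorem okJ : ∀ J, J < 218 → ∃ m m', z.okJ J m m' = true
  | 0, _ => ⟨_, _, ck0⟩
  | 1, _ => ⟨_, _, ck1⟩
  | 2, _ => ⟨_, _, ck2⟩
  | 3, _ => ⟨_, _, ck3⟩
  | 4, _ => ⟨_, _, ck4⟩
  | 5, _ => ⟨_, _, ck5⟩
  | 6, _ => ⟨_, _, ck6⟩
  | 7, _ => ⟨_, _, ck7⟩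
  | 8, _ => ⟨_, _, ck8⟩
  | 9, _ => ⟨_, _, ck9⟩
  | 10, _ => ⟨_, _, ck10⟩
  | 11, _ => ⟨_, _, ck11⟩
  | 12, _ => ⟨_, _, ck12⟩
  | 13, _ => ⟨_, _, ck13⟩
  | 14, _ => ⟨_, _, ck14⟩
  | 15, _ => ⟨_, _, ck15⟩
  | 16, _ => ⟨_, _, ck16⟩
  | 17, _ => ⟨_, _, ck17⟩
  | 18, _ => ⟨_, _, ck18⟩
  | 19, _ => ⟨_, _, ck19⟩
  | 20, _ => ⟨_, _, ck20⟩
  | 21, _ => ⟨_, _, ck21⟩
  | 22, _ => ⟨_, _, ck22⟩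
  | 23, _ => ⟨_, _, ck23⟩
  | 24, _ => ⟨_, _, ck24⟩
  | 25, _ => ⟨_, _, ck25⟩
  | 26, _ => ⟨_, _, ck26⟩
  | 27, _ => ⟨_, _, ck27⟩
  | 28, _ => ⟨_, _, ck28⟩
  | 29, _ => ⟨_, _, ck29⟩
  | 30, _ => ⟨_, _, ck30⟩
  | 31, _ => ⟨_, _, ck31⟩
  | 32, _ => ⟨_, _, ck32⟩
  | 33, _ => ⟨_, _, ck33⟩
  | 34, _ => ⟨_, _, ck34⟩
  | 35, _ => ⟨_, _, ck35⟩
  | 36, _ => ⟨_, _, ck36⟩
  | 37, _ => ⟨_, _, ck37⟩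
  | 38, _ => ⟨_, _, ck38⟩
  | 39, _ => ⟨_, _, ck39⟩
  | 40, _ => ⟨_, _, ck40⟩
  | 41, _ => ⟨_, _, ck41⟩
  | 42, _ => ⟨_, _, ck42⟩
  | 43, _ => ⟨_, _, ck43⟩
  | 44, _ => ⟨_, _, ck44⟩
  | 45, _ => ⟨_, _, ck45⟩
  | 46, _ => ⟨_, _, ck46⟩
  | 47, _ => ⟨_, _, ck47⟩
  | 48, _ => ⟨_, _, ck48⟩
  | 49, _ => ⟨_, _, ck49⟩
  | 50, _ => ⟨_, _, ck50⟩
  | 51, _ => ⟨_, _, ck51⟩
  | 52, _ => ⟨_, _, ck52⟩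
  | 53, _ => ⟨_, _, ck53⟩
  | 54, _ => ⟨_, _, ck54⟩
  | 55, _ => ⟨_, _, ck55⟩
  | 56, _ => ⟨_, _, ck56⟩
  | 57, _ => ⟨_, _, ck57⟩
  | 58, _ => ⟨_, _, ck58⟩
  | 59, _ => ⟨_, _, ck59⟩
  | 60, _ => ⟨_, _, ck60⟩
  | 61, _ => ⟨_, _, ck61⟩
  | 62, _ => ⟨_, _, ck62⟩
  | 63, _ => ⟨_, _, ck63⟩
  | 64, _ => ⟨_, _, ck64⟩
  | 65, _ => ⟨_, _, ck65⟩
  | 66, _ => ⟨_, _, ck66⟩
  | 67, _ => ⟨_, _, ck67⟩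
  | 68, _ => ⟨_, _, ck68⟩
  | 69, _ => ⟨_, _, ck69⟩
  | 70, _ => ⟨_, _, ck70⟩
  | 71, _ => ⟨_, _, ck71⟩
  | 72, _ => ⟨_, _, ck72⟩
  | 73, _ => ⟨_, _, ck73⟩
  | 74, _ => ⟨_, _, ck74⟩
  | 75, _ => ⟨_, _, ck75⟩
  | 76, _ => ⟨_, _, ck76⟩
  | 77, _ => ⟨_, _, ck77⟩
  | 78, _ => ⟨_, _, ck78⟩
  | 79, _ => ⟨_, _, ck79⟩
  | 80, _ => ⟨_, _, ck80⟩
  | 81, _ => ⟨_, _, ck81⟩
  | 82, _ => ⟨_, _, ck82⟩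
  | 83, _ => ⟨_, _, ck83⟩
  | 84, _ => ⟨_, _, ck84⟩
  | 85, _ => ⟨_, _, ck85⟩
  | 86, _ => ⟨_, _, ck86⟩
  | 87, _ => ⟨_, _, ck87⟩
  | 88, _ => ⟨_, _, ck88⟩
  | 89, _ => ⟨_, _, ck89⟩
  | 90, _ => ⟨_, _, ck90⟩
  | 91, _ => ⟨_, _, ck91⟩
  | 92, _ => ⟨_, _, ck92⟩
  | 93, _ => ⟨_, _, ck93⟩
  | 94, _ => ⟨_, _, ck94⟩
  | 95, _ => ⟨_, _, ck95⟩
  | 96, _ => ⟨_, _, ck96⟩
  | 97, _ => ⟨_, _, ck97⟩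
  | 98, _ => ⟨_, _, ck98⟩
  | 99, _ => ⟨_, _, ck99⟩
  | 100, _ => ⟨_, _, ck100⟩
  | 101, _ => ⟨_, _, ck101⟩
  | 102, _ => ⟨_, _, ck102⟩
  | 103, _ => ⟨_, _, ck103⟩
  | 104, _ => ⟨_, _, ck104⟩
  | 105, _ => ⟨_, _, ck105⟩
  | 106, _ => ⟨_, _, ck106⟩
  | 107, _ => ⟨_, _, ck107⟩
  | 108, _ => ⟨_, _, ck108⟩
  | 109, _ => ⟨_, _, ck109⟩
  | 110, _ => ⟨_, _, ck110⟩
  | 111, _ => ⟨_, _, ck111⟩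
  | 112, _ => ⟨_, _, ck112⟩
  | 113, _ => ⟨_, _, ck113⟩
  | 114, _ => ⟨_, _, ck114⟩
  | 115, _ => ⟨_, _, ck115⟩
  | 116, _ => ⟨_, _, ck116⟩
  | 117, _ => ⟨_, _, ck117⟩
  | 118, _ => ⟨_, _, ck118⟩
  | 119, _ => ⟨_, _, ck119⟩
  | 120, _ => ⟨_, _, ck120⟩
  | 121, _ => ⟨_, _, ck121⟩
  | 122, _ => ⟨_, _, ck122⟩
  | 123, _ => ⟨_, _, ck123⟩
  | 124, _ => ⟨_, _, ck124⟩
  | 125, _ => ⟨_, _, ck125⟩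
  | 126, _ => ⟨_, _, ck126⟩
  | 127, _ => ⟨_, _, ck127⟩
  | 128, _ => ⟨_, _, ck128⟩
  | 129, _ => ⟨_, _, ck129⟩
  | 130, _ => ⟨_, _, ck130⟩
  | 131, _ => ⟨_, _, ck131⟩
  | 132, _ => ⟨_, _, ck132⟩
  | 133, _ => ⟨_, _, ck133⟩
  | 134, _ => ⟨_, _, ck134⟩
  | 135, _ => ⟨_, _, ck135⟩
  | 136, _ => ⟨_, _, ck136⟩
  | 137, _ => ⟨_, _, ck137⟩
  | 138, _ => ⟨_, _, ck138⟩
  | 139, _ => ⟨_, _, ck139⟩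
  | 140, _ => ⟨_, _, ck140⟩
  | 141, _ => ⟨_, _, ck141⟩
  | 142, _ => ⟨_, _, ck142⟩
  | 143, _ => ⟨_, _, ck143⟩
  | 144, _ => ⟨_, _, ck144⟩
  | 145, _ => ⟨_, _, ck145⟩
  | 146, _ => ⟨_, _, ck146⟩
  | 147, _ => ⟨_, _, ck147⟩
  | 148, _ => ⟨_, _, ck148⟩
  | 149, _ => ⟨_, _, ck149⟩
  | 150, _ => ⟨_, _, ck150⟩
  | 151, _ => ⟨_, _, ck151⟩
  | 152, _ => ⟨_, _, ck152⟩
  | 153, _ => ⟨_, _, ck153⟩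
  | 154, _ => ⟨_, _, ck154⟩
  | 155, _ => ⟨_, _, ck155⟩
  | 156, _ => ⟨_, _, ck156⟩
  | 157, _ => ⟨_, _, ck157⟩
  | 158, _ => ⟨_, _, ck158⟩
  | 159, _ => ⟨_, _, ck159⟩
  | 160, _ => ⟨_, _, ck160⟩
  | 161, _ => ⟨_, _, ck161⟩
  | 162, _ => ⟨_, _, ck162⟩
  | 163, _ => ⟨_, _, ck163⟩
  | 164, _ => ⟨_, _, ck164⟩
  | 165, _ => ⟨_, _, ck165⟩
  | 166, _ => ⟨_, _, ck166⟩
  | 167, _ => ⟨_, _, ck167⟩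
  | 168, _ => ⟨_, _, ck168⟩
  | 169, _ => ⟨_, _, ck169⟩
  | 170, _ => ⟨_, _, ck170⟩
  | 171, _ => ⟨_, _, ck171⟩
  | 172, _ => ⟨_, _, ck172⟩
  | 173, _ => ⟨_, _, ck173⟩
  | 174, _ => ⟨_, _, ck174⟩
  | 175, _ => ⟨_, _, ck175⟩
  | 176, _ => ⟨_, _, ck176⟩
  | 177, _ => ⟨_, _, ck177⟩
  | 178, _ => ⟨_, _, ck178⟩
  | 179, _ => ⟨_, _, ck179⟩
  | 180, _ => ⟨_, _, ck180⟩
  | 181, _ => ⟨_, _, ck181⟩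
  | 182, _ => ⟨_, _, ck182⟩
  | 183, _ => ⟨_, _, ck183⟩
  | 184, _ => ⟨_, _, ck184⟩
  | 185, _ => ⟨_, _, ck185⟩
  | 186, _ => ⟨_, _, ck186⟩
  | 187, _ => ⟨_, _, ck187⟩
  | 188, _ => ⟨_, _, ck188⟩
  | 189, _ => ⟨_, _, ck189⟩
  | 190, _ => ⟨_, _, ck190⟩
  | 191, _ => ⟨_, _, ck191⟩
  | 192, _ => ⟨_, _, ck192⟩
  | 193, _ => ⟨_, _, ck193⟩
  | 194, _ => ⟨_, _, ck194⟩
  | 195, _ => ⟨_, _, ck195⟩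
  | 196, _ => ⟨_, _, ck196⟩
  | 197, _ => ⟨_, _, ck197⟩
  | 198, _ => ⟨_, _, ck198⟩
  | 199, _ => ⟨_, _, ck199⟩
  | 200, _ => ⟨_, _, ck200⟩
  | 201, _ => ⟨_, _, ck201⟩
  | 202, _ => ⟨_, _, ck202⟩
  | 203, _ => ⟨_, _, ck203⟩
  | 204, _ => ⟨_, _, ck204⟩
  | 205, _ => ⟨_, _, ck205⟩
  | 206, _ => ⟨_, _, ck206⟩
  | 207, _ => ⟨_, _, ck207⟩
  | 208, _ => ⟨_, _, ck208⟩
  | 209, _ => ⟨_, _, ck209⟩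
  | 210, _ => ⟨_, _, ck210⟩
  | 211, _ => ⟨_, _, ck211⟩
  | 212, _ => ⟨_, _, ck212⟩
  | 213, _ => ⟨_, _, ck213⟩
  | 214, _ => ⟨_, _, ck214⟩
  | 215, _ => ⟨_, _, ck215⟩
  | 216, _ => ⟨_, _, ck216⟩
  | 217, _ => ⟨_, _, ck217⟩
  | n + 218, h => absurd h (by omega)

theorem okS : ∀ l, z.okS l := by
  decide +kernel

theorem rhoS : ∀ j, j < 218 → z.rho j < z.rho (j + 1) := by
  decide +kernel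

theorem tS : ∀ i, i < 75 → (z.sc i).t < (z.sc (i + 1)).t := by
  decide +kernel

theorem rep0 (n i : ℕ) : (List.replicate n Row.z).getD i Row.z = Row.z := by
  rw [List.getD_eq_getElem?_getD, List.getElem?_replicate]
  split_ifs <;> rfl

theorem row0 (i : ℕ) : (z.row 0 i).c = 0 ∧ (z.row 0 i).e = 0 := by
  have h : z.row 0 i = Row.z := rep0 77 i
  rw [h]
  exact ⟨rfl, rfl⟩

theorem ok : z.Ok where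
  hN := by decide
  hL := by decide
  len := by decide +kernel
  row0 := row0
  mu0 := by decide +kernel
  nu0 := by decide +kernel
  rho0 := by decide +kernel
  rhoS := rhoS
  t0 := by decide +kernel
  tS := fun i hi => tS i (by have : z.L = 76 := rfl; omega)
  ka := by decide +kernel
  okS := okS
  okJ := okJ

theorem okV : z.okV 1973 = true := by
  decide +kernel

theorem rho_le : ∀ j, j < 218 → z.rho j ≤ 636619 := by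
  decide +kernel

end Pool.Agent.Run7.h583.Fill.D
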