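import Pool.Agent.Run7.h583.Fill.D.All

/-!
# Orientable fillings of the circle: the area is at least `1.973 π`
-/

set_option autoImplicit false

open MeasureTheory Metric Set Filter Topology InnerProductGeometry

namespace Pool.Agent.Run7.h583.Fill.D

open Pool.Agent.H241R3.FV Pool.Agent.N526.CP

theorem area (M : Type) [MetricSpace M] [CompactSpace M] (S : OFill 2 M)
    (hS : ∀ x y : Sph 2, angle (x : E 2) (y : E 2) ≤ dist (S.bd x) (S.bd y)) :
    ENNReal.ofReal (1.973 * Real.pi) ≤ S.vol := by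
  have hpi := Real.pi_pos
  have h1 := ok.area 1973 okV (by
    have e : ((((z.rho z.N : ℚ) / 10 ^ 6 : ℚ)) : ℝ) = 636620 / 10 ^ 6 := by
      have : z.rho z.N = 636620 := by decide +kernel
      rw [this]
      norm_num
    rw [e, div_le_iff₀ hpi]
    have := Real.pi_gt_d6
    norm_num at this ⊢
    linarith) (fun j hj => by
    have h2 : ((z.rho j : ℤ) : ℝ) ≤ 636619 := by exact_mod_cast rho_le j hj
    rw [le_div_iff₀ hpi]
    have h3 : ((z.rho j : ℤ) : ℝ) / 10 ^ 6 ≤ 636619 / 10 ^ 6 := by gcongr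
    have h4 := mul_le_mul_of_nonneg_right h3 hpi.le
    have := Real.pi_lt_d6
    norm_num at this h4 ⊢
    linarith) M S hS
  have e : (((1973 : ℤ) : ℝ) / 1000 * Real.pi) = 1.973 * Real.pi := by norm_num
  rwa [e] at h1

end Pool.Agent.Run7.h583.Fill.D
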