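import Pool.Agent.Run7.h583.Fill.D.Dat
import Pool.Agent.Run7.h583.Fill.Fin2

/-!
# The tests for the intervals 0 to 10
-/

set_option autoImplicit false
set_option maxRecDepth 100000

namespace Pool.Agent.Run7.h583.Fill.D

theorem ck0 : z.okJ 0 ⟨770514137800, -1540900562882, 3081545721495, 3223390072397, -1594626695278, 801760816708⟩
    ⟨784253791791, -1428668785859, 3130228051970, 3317014029291, -1640585547630, 824444988286⟩ = true := by decide +kernel

theorem ck1 : z.okJ 1 ⟨792298227982, -1442949130234, 3154479122326, 3271194813662, -1629563066303, 815855284714⟩
    ⟨799157334634, -1440586653872, 3196871559089, 3256705925958, -1621662264325, 811629230798⟩ = true := by decide +kernel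

theorem ck2 : z.okJ 2 ⟨800916246035, -1442971194907, 3193311270477, 3248778286043, -1620795675835, 810721385612⟩
    ⟨804292629705, -1450659545401, 3217038326707, 3231586742801, -1611931631153, 806183786975⟩ = true := by decide +kernel

theorem ck3 : z.okJ 3 ⟨804812873177, -1451014765685, 3211334558699, 3230057046184, -1612522349074, 806338122275⟩
    ⟨806704856589, -1459350085355, 3226404169496, 3215854551571, -1605286231147, 802670255874⟩ = true := by decide +kernel

theorem ck4 : z.okJ 4 ⟨806796185143, -1459085553935, 3220856668485, 3216248707396, -1606226156022, 803091220502⟩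
    ⟨807914547877, -1466475551421, 3231020890287, 3205056010574, -1600552876518, 800227740012⟩ = true := by decide +kernel

theorem ck5 : z.okJ 5 ⟨807775946126, -1465906523139, 3225938899889, 3206297108265, -1601636381232, 800753386792⟩
    ⟨808419288955, -1472301572029, 3232967567085, 3197408465393, -1597144396390, 798491682870⟩ = true := by decide +kernel

theorem ck6 : z.okJ 6 ⟨808142873361, -1471559855725, 3228348753045, 3199086499927, -1598291460956, 799063821069⟩
    ⟨808459989264, -1476991264544, 3233122190861, 3192085365706, -1594760406246, 797288946180⟩ = true := by decide +kernel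

theorem ck7 : z.okJ 7 ⟨808085603452, -1476127253119, 3228903028858, 3194041526498, -1595948242662, 797889775888⟩
    ⟨808159144290, -1480694321161, 3231960080085, 3188598331367, -1593207377818, 796514114812⟩ = true := by decide +kernel

theorem ck8 : z.okJ 8 ⟨807713150658, -1479739412000, 3228064425190, 3190751322534, -1594422168899, 797135380497⟩
    ⟨807600460523, -1483493458187, 3229773227174, 3186657208017, -1592363990872, 796104043881⟩ = true := by decide +kernel

theorem ck9 : z.okJ 9 ⟨807100186313, -1482468359944, 3226145744537, 3188959529019, -1593596259764, 796741083411⟩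
    ⟨806833594509, -1485608541203, 3226827898591, 3185896860954, -1592059943391, 795972981310⟩ = true := by decide +kernel

theorem ck10 : z.okJ 10 ⟨806285532621, -1484513869908, 3223340300780, 3188360273045, -1593321840614, 796633640747⟩
    ⟨805889009549, -1487174612811, 3223239689023, 3186107200005, -1592195328932, 796072389884⟩ = true := by decide +kernel

end Pool.Agent.Run7.h583.Fill.D
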