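import Pool.Agent.Run7.h583.Fill.D.Dat
import Pool.Agent.Run7.h583.Fill.Fin2

/-!
# The tests for the intervals 110 to 120
-/

set_option autoImplicit false
set_option maxRecDepth 100000

namespace Pool.Agent.Run7.h583.Fill.D

theorem ck110 : z.okJ 110 ⟨823554910012, -133008988052, 4664601740676, 8435464690921, -1028443422101, 1597735396857⟩
    ⟨824774804711, -109466954651, 4835631296694, 8413476424785, -1035475932821, 1570991035570⟩ = true := by decide +kernel

theorem ck111 : z.okJ 111 ⟨833615877117, -95852956006, 4745345275565, 8560845663023, -1009877663286, 1606317043336⟩
    ⟨835790661044, -69289081179, 4922550445901, 8540857870958, -1018646139411, 1579299488535⟩ = true := by decide +kernel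

theorem ck112 : z.okJ 112 ⟨843069349914, -57488882562, 4832854180567, 8725812698301, -980910887910, 1618020129004⟩
    ⟨846097057281, -29576659470, 5007185990786, 8706639022308, -991366038209, 1591703223239⟩ = true := by decide +kernel

theorem ck113 : z.okJ 113 ⟨852489333887, -19584889926, 4920403310935, 8889810252383, -952228657409, 1629163937084⟩
    ⟨856430455153, 9703481778, 5091455224091, 8871447087091, -964361106837, 1603662188944⟩ = true := by decide +kernel

theorem ck114 : z.okJ 114 ⟨862425161586, 18088657008, 5007159220494, 9034765999961, -928857376084, 1638068999805⟩
    ⟨867541038672, 49942851747, 5179302545125, 9018067277211, -942870128425, 1613066115498⟩ = true := by decide +kernel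

theorem ck115 : z.okJ 115 ⟨872549801166, 56355598775, 5096564103882, 9183111857607, -904972106654, 1646710600265⟩
    ⟨879001881830, 91039375093, 5269581968352, 9168232529380, -921003575289, 1622360006543⟩ = true := by decide +kernel

theorem ck116 : z.okJ 116 ⟨882837282288, 95182861258, 5188716712101, 9335083557890, -880521259112, 1655056846855⟩
    ⟨890811309150, 133001301805, 5362334846827, 9322178865317, -898722477777, 1631551507926⟩ = true := by decide +kernel

theorem ck117 : z.okJ 117 ⟨892654644119, 134242938289, 5284076739511, 9511877747924, -849805260493, 1665049481852⟩
    ⟨902062610427, 174168626605, 5452967447283, 9499953439576, -870035396214, 1643024597612⟩ = true := by decide +kernel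

theorem ck118 : z.okJ 118 ⟨902854034533, 172751710191, 5378865727825, 9665787055830, -825182412235, 1672290089271⟩
    ⟨914160890115, 216397906935, 5547445329246, 9655948970379, -847786276201, 1651652369436⟩ = true := by decide +kernel

theorem ck119 : z.okJ 119 ⟨912450798606, 211284270196, 5476969744191, 9846986431036, -793737841519, 1681160115574⟩
    ⟨925598690606, 257652494635, 5639376912784, 9837996908657, -818539508480, 1662766978299⟩ = true := by decide +kernel

theorem ck120 : z.okJ 120 ⟨922830571622, 249075217728, 5574858803177, 9978235730502, -775307585584, 1684358857172⟩
    ⟨938948847547, 301883073477, 5740378745254, 9972554157648, -803215337390, 1668161180883⟩ = true := by decide +kernel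

end Pool.Agent.Run7.h583.Fill.D
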